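import Mathlib

/-!
The integral symmetric relation algebra `33_65` (atoms `1', a, b, c`; forbidden diversity cycles
`ccc`, `bcc`, `bbc`; `a` flexible) has a square representation on a finite set with 504 points.

The points are the pairs `(T, x)` with `T` a 3-subset of a 9-element set and `x` an element outside
`T`.  Two points `(T, x)`, `(S, y)` get the colour

* `c`, if `T` and `S` are disjoint and either `x = y`, or `x` lies in `S` and `y` lies in `T`;
* `b`, if `x` lies in `S`, `y` lies in `T` and `T`, `S` meet, or if `T`, `S` are disjoint, `x` and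
  `y` are different, `x` is not in `S` and `y` is not in `T`;
* `a`, otherwise (for distinct points).
-/

namespace Pool.Agent.Results.MP_793ea6_al.FiniteRep

/-- The four atoms of `33_65`; `one` is the identity atom. -/
inductive Atom
  | one | a | b | c
  deriving DecidableEq

open Atom

/-- A cycle of diversity atoms is forbidden iff its multiset of atoms is
`{c,c,c}`, `{b,c,c}` or `{b,b,c}`. -/
def Forbidden (x y z : Atom) : Prop :=
  ({x, y, z} : Multiset Atom) = {c, c, c} ∨ ({x, y, z} : Multiset Atom) = {b, c, c} ∨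
    ({x, y, z} : Multiset Atom) = {b, b, c}

/-- `Below x y z` says that the atom `z` lies below the composition of the atoms `x` and `y`:
the identity atom is neutral, the identity lies below `x ; y` iff `x = y` (all atoms are
symmetric), and a diversity cycle is allowed iff it is not forbidden. -/
def Below (x y z : Atom) : Prop :=
  (x = one ∧ y = z) ∨ (y = one ∧ x = z) ∨ (z = one ∧ x = y) ∨
    (x ≠ one ∧ y ≠ one ∧ z ≠ one ∧ ¬ Forbidden x y z)

/-- Composition of two elements of the algebra; elements are sets of atoms, the Boolean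
structure is that of `Set Atom`, converse is the identity map and the identity element is
`{one}`. -/
def comp (X Y : Set Atom) : Set Atom := {z | ∃ x ∈ X, ∃ y ∈ Y, Below x y z}

/-- A square representation of `33_65` on `U`: an embedding into the algebra of all binary
relations on `U` preserving union, complement, composition, converse and identity. -/
structure SquareRep {U : Type} (h : Set Atom → Set (U × U)) : Prop where
  inj : Function.Injective h
  union : ∀ X Y, h (X ∪ Y) = h X ∪ h Y
  compl : ∀ X, h Xᶜ = (h X)ᶜ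
  comp : ∀ X Y, h (comp X Y) = {p : U × U | ∃ w : U, (p.1, w) ∈ h X ∧ (w, p.2) ∈ h Y}
  conv : ∀ X, h X = {p : U × U | (p.2, p.1) ∈ h X}
  ident : h {one} = {p : U × U | p.1 = p.2}

/-- The finite part of the spectrum of `33_65`. -/
def FinSpec : Set ℕ := {n | 0 < n ∧ ∃ h : Set Atom → Set (Fin n × Fin n), SquareRep h}

/-! ### The masks -/

/-- The 504 points `(T, x)`, written as `(p, q, r, x)` with `T = {p, q, r}`. -/
def verts : List (ℕ × ℕ × ℕ × ℕ) :=
  [(0,1,2,3),(0,1,2,4),(0,1,2,5),(0,1,2,6),(0,1,2,7),(0,1,2,8),(0,1,3,2),(0,1,3,4),(0,1,3,5),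
   (0,1,3,6),(0,1,3,7),(0,1,3,8),(0,1,4,2),(0,1,4,3),(0,1,4,5),(0,1,4,6),(0,1,4,7),(0,1,4,8),
   (0,1,5,2),(0,1,5,3),(0,1,5,4),(0,1,5,6),(0,1,5,7),(0,1,5,8),(0,1,6,2),(0,1,6,3),(0,1,6,4),
   (0,1,6,5),(0,1,6,7),(0,1,6,8),(0,1,7,2),(0,1,7,3),(0,1,7,4),(0,1,7,5),(0,1,7,6),(0,1,7,8),
   (0,1,8,2),(0,1,8,3),(0,1,8,4),(0,1,8,5),(0,1,8,6),(0,1,8,7),(0,2,3,1),(0,2,3,4),(0,2,3,5),
   (0,2,3,6),(0,2,3,7),(0,2,3,8),(0,2,4,1),(0,2,4,3),(0,2,4,5),(0,2,4,6),(0,2,4,7),(0,2,4,8),
   (0,2,5,1),(0,2,5,3),(0,2,5,4),(0,2,5,6),(0,2,5,7),(0,2,5,8),(0,2,6,1),(0,2,6,3),(0,2,6,4),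
   (0,2,6,5),(0,2,6,7),(0,2,6,8),(0,2,7,1),(0,2,7,3),(0,2,7,4),(0,2,7,5),(0,2,7,6),(0,2,7,8),
   (0,2,8,1),(0,2,8,3),(0,2,8,4),(0,2,8,5),(0,2,8,6),(0,2,8,7),(0,3,4,1),(0,3,4,2),(0,3,4,5),
   (0,3,4,6),(0,3,4,7),(0,3,4,8),(0,3,5,1),(0,3,5,2),(0,3,5,4),(0,3,5,6),(0,3,5,7),(0,3,5,8),
   (0,3,6,1),(0,3,6,2),(0,3,6,4),(0,3,6,5),(0,3,6,7),(0,3,6,8),(0,3,7,1),(0,3,7,2),(0,3,7,4),
   (0,3,7,5),(0,3,7,6),(0,3,7,8),(0,3,8,1),(0,3,8,2),(0,3,8,4),(0,3,8,5),(0,3,8,6),(0,3,8,7),
   (0,4,5,1),(0,4,5,2),(0,4,5,3),(0,4,5,6),(0,4,5,7),(0,4,5,8),(0,4,6,1),(0,4,6,2),(0,4,6,3),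
   (0,4,6,5),(0,4,6,7),(0,4,6,8),(0,4,7,1),(0,4,7,2),(0,4,7,3),(0,4,7,5),(0,4,7,6),(0,4,7,8),
   (0,4,8,1),(0,4,8,2),(0,4,8,3),(0,4,8,5),(0,4,8,6),(0,4,8,7),(0,5,6,1),(0,5,6,2),(0,5,6,3),
   (0,5,6,4),(0,5,6,7),(0,5,6,8),(0,5,7,1),(0,5,7,2),(0,5,7,3),(0,5,7,4),(0,5,7,6),(0,5,7,8),
   (0,5,8,1),(0,5,8,2),(0,5,8,3),(0,5,8,4),(0,5,8,6),(0,5,8,7),(0,6,7,1),(0,6,7,2),(0,6,7,3),
   (0,6,7,4),(0,6,7,5),(0,6,7,8),(0,6,8,1),(0,6,8,2),(0,6,8,3),(0,6,8,4),(0,6,8,5),(0,6,8,7),
   (0,7,8,1),(0,7,8,2),(0,7,8,3),(0,7,8,4),(0,7,8,5),(0,7,8,6),(1,2,3,0),(1,2,3,4),(1,2,3,5),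
   (1,2,3,6),(1,2,3,7),(1,2,3,8),(1,2,4,0),(1,2,4,3),(1,2,4,5),(1,2,4,6),(1,2,4,7),(1,2,4,8),
   (1,2,5,0),(1,2,5,3),(1,2,5,4),(1,2,5,6),(1,2,5,7),(1,2,5,8),(1,2,6,0),(1,2,6,3),(1,2,6,4),
   (1,2,6,5),(1,2,6,7),(1,2,6,8),(1,2,7,0),(1,2,7,3),(1,2,7,4),(1,2,7,5),(1,2,7,6),(1,2,7,8),
   (1,2,8,0),(1,2,8,3),(1,2,8,4),(1,2,8,5),(1,2,8,6),(1,2,8,7),(1,3,4,0),(1,3,4,2),(1,3,4,5),
   (1,3,4,6),(1,3,4,7),(1,3,4,8),(1,3,5,0),(1,3,5,2),(1,3,5,4),(1,3,5,6),(1,3,5,7),(1,3,5,8),
   (1,3,6,0),(1,3,6,2),(1,3,6,4),(1,3,6,5),(1,3,6,7),(1,3,6,8),(1,3,7,0),(1,3,7,2),(1,3,7,4),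
   (1,3,7,5),(1,3,7,6),(1,3,7,8),(1,3,8,0),(1,3,8,2),(1,3,8,4),(1,3,8,5),(1,3,8,6),(1,3,8,7),
   (1,4,5,0),(1,4,5,2),(1,4,5,3),(1,4,5,6),(1,4,5,7),(1,4,5,8),(1,4,6,0),(1,4,6,2),(1,4,6,3),
   (1,4,6,5),(1,4,6,7),(1,4,6,8),(1,4,7,0),(1,4,7,2),(1,4,7,3),(1,4,7,5),(1,4,7,6),(1,4,7,8),
   (1,4,8,0),(1,4,8,2),(1,4,8,3),(1,4,8,5),(1,4,8,6),(1,4,8,7),(1,5,6,0),(1,5,6,2),(1,5,6,3),
   (1,5,6,4),(1,5,6,7),(1,5,6,8),(1,5,7,0),(1,5,7,2),(1,5,7,3),(1,5,7,4),(1,5,7,6),(1,5,7,8),
   (1,5,8,0),(1,5,8,2),(1,5,8,3),(1,5,8,4),(1,5,8,6),(1,5,8,7),(1,6,7,0),(1,6,7,2),(1,6,7,3),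
   (1,6,7,4),(1,6,7,5),(1,6,7,8),(1,6,8,0),(1,6,8,2),(1,6,8,3),(1,6,8,4),(1,6,8,5),(1,6,8,7),
   (1,7,8,0),(1,7,8,2),(1,7,8,3),(1,7,8,4),(1,7,8,5),(1,7,8,6),(2,3,4,0),(2,3,4,1),(2,3,4,5),
   (2,3,4,6),(2,3,4,7),(2,3,4,8),(2,3,5,0),(2,3,5,1),(2,3,5,4),(2,3,5,6),(2,3,5,7),(2,3,5,8),
   (2,3,6,0),(2,3,6,1),(2,3,6,4),(2,3,6,5),(2,3,6,7),(2,3,6,8),(2,3,7,0),(2,3,7,1),(2,3,7,4),
   (2,3,7,5),(2,3,7,6),(2,3,7,8),(2,3,8,0),(2,3,8,1),(2,3,8,4),(2,3,8,5),(2,3,8,6),(2,3,8,7),
   (2,4,5,0),(2,4,5,1),(2,4,5,3),(2,4,5,6),(2,4,5,7),(2,4,5,8),(2,4,6,0),(2,4,6,1),(2,4,6,3),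
   (2,4,6,5),(2,4,6,7),(2,4,6,8),(2,4,7,0),(2,4,7,1),(2,4,7,3),(2,4,7,5),(2,4,7,6),(2,4,7,8),
   (2,4,8,0),(2,4,8,1),(2,4,8,3),(2,4,8,5),(2,4,8,6),(2,4,8,7),(2,5,6,0),(2,5,6,1),(2,5,6,3),
   (2,5,6,4),(2,5,6,7),(2,5,6,8),(2,5,7,0),(2,5,7,1),(2,5,7,3),(2,5,7,4),(2,5,7,6),(2,5,7,8),
   (2,5,8,0),(2,5,8,1),(2,5,8,3),(2,5,8,4),(2,5,8,6),(2,5,8,7),(2,6,7,0),(2,6,7,1),(2,6,7,3),
   (2,6,7,4),(2,6,7,5),(2,6,7,8),(2,6,8,0),(2,6,8,1),(2,6,8,3),(2,6,8,4),(2,6,8,5),(2,6,8,7),
   (2,7,8,0),(2,7,8,1),(2,7,8,3),(2,7,8,4),(2,7,8,5),(2,7,8,6),(3,4,5,0),(3,4,5,1),(3,4,5,2),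
   (3,4,5,6),(3,4,5,7),(3,4,5,8),(3,4,6,0),(3,4,6,1),(3,4,6,2),(3,4,6,5),(3,4,6,7),(3,4,6,8),
   (3,4,7,0),(3,4,7,1),(3,4,7,2),(3,4,7,5),(3,4,7,6),(3,4,7,8),(3,4,8,0),(3,4,8,1),(3,4,8,2),
   (3,4,8,5),(3,4,8,6),(3,4,8,7),(3,5,6,0),(3,5,6,1),(3,5,6,2),(3,5,6,4),(3,5,6,7),(3,5,6,8),
   (3,5,7,0),(3,5,7,1),(3,5,7,2),(3,5,7,4),(3,5,7,6),(3,5,7,8),(3,5,8,0),(3,5,8,1),(3,5,8,2),
   (3,5,8,4),(3,5,8,6),(3,5,8,7),(3,6,7,0),(3,6,7,1),(3,6,7,2),(3,6,7,4),(3,6,7,5),(3,6,7,8),
   (3,6,8,0),(3,6,8,1),(3,6,8,2),(3,6,8,4),(3,6,8,5),(3,6,8,7),(3,7,8,0),(3,7,8,1),(3,7,8,2),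
   (3,7,8,4),(3,7,8,5),(3,7,8,6),(4,5,6,0),(4,5,6,1),(4,5,6,2),(4,5,6,3),(4,5,6,7),(4,5,6,8),
   (4,5,7,0),(4,5,7,1),(4,5,7,2),(4,5,7,3),(4,5,7,6),(4,5,7,8),(4,5,8,0),(4,5,8,1),(4,5,8,2),
   (4,5,8,3),(4,5,8,6),(4,5,8,7),(4,6,7,0),(4,6,7,1),(4,6,7,2),(4,6,7,3),(4,6,7,5),(4,6,7,8),
   (4,6,8,0),(4,6,8,1),(4,6,8,2),(4,6,8,3),(4,6,8,5),(4,6,8,7),(4,7,8,0),(4,7,8,1),(4,7,8,2),
   (4,7,8,3),(4,7,8,5),(4,7,8,6),(5,6,7,0),(5,6,7,1),(5,6,7,2),(5,6,7,3),(5,6,7,4),(5,6,7,8),
   (5,6,8,0),(5,6,8,1),(5,6,8,2),(5,6,8,3),(5,6,8,4),(5,6,8,7),(5,7,8,0),(5,7,8,1),(5,7,8,2),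
   (5,7,8,3),(5,7,8,4),(5,7,8,6),(6,7,8,0),(6,7,8,1),(6,7,8,2),(6,7,8,3),(6,7,8,4),(6,7,8,5)]

/-- `mm p`: the set of (indices of) points `(T, x)` with `p` in `T`, as a bit mask. -/
def mm (p : ℕ) : ℕ :=
  ([374144419156711147060143317175368453031918731001855,
   31828687130226345097944463881396533766055049231873542769129551203986839355774615349624831,
   39402006196394479212279040068314926674853394172520982812262768345586228109981639025623030057204818734396517837176895,
   45427420268475430619930731796605804218999337485719639150607400406699864152837061860084747013544934642558594220565467604897409208946624,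
   3121748550270564811113782855063221810158728669983444024064259804845891227256124679696500849362770996938612305259495875789505436338837618564526080,
   818344530237393631742678288623828521288569567141899228032935595945305854047051469102712444777730120287000867008552512114081623676813017942469935628288,
   51568685683443193876560871863171248752059934807602409439289436658854662784167329544022197022352932966874602314835474425941588454939010679557681903042560,
   52361662788156495065441916373468846316677787444651169404485505897052016872759821728975234483323534598893490756779261033040107930265040874443514379763712,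
   52374053055429176870895407540202549993817978238942678408667705866639378914871808959006829938191988522316301186330462593479455716883703807678023414579200] : List ℕ).getD p 0

/-- `xx p`: the set of (indices of) points `(T, x)` with `x = p`, as a bit mask. -/
def xx (p : ℕ) : ℕ :=
  ([831337297243464601908111669035580737070893218042683121138613680786319694324996712351306690114515341492699087728321428398211631548552346600338693816320,
   1662674594486929203816223338071161474141786436085366242277227360562204876579315802545646272883108976132446523955208342650408039433639451002059706335232,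
   3325349188973858407632446676142322945781858193034575074251023606686277492222744517881848046800567342190362667003272147151036695154876133412735493083200,
   6650698377947716809496332048351257878836131789445840358562755634945984988365018914334909414707872801190945105879734904722792743986938391835489371430913,
   13301395963070404984617781308330550858989768833784287060058698868166377717050093860499971878324453641863798634084971360298176088078665609619050956062850,
   26187125655991139235854246243891280720776860794815517136892249872310218747473633559131262612500063954856251115111328923907879911456262305459108703125764,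
   409175386864316563554588261857594563256902356543671754690501192750604685203514222181105869443301987426117339561422299656197410981273466040012184257032,
   6393365425662691456701103732485413235159624018310754685740995032368755806340600126655942460911108195973705879623104515525133122295102382755668886544,
   99896334777421874604499829351843376911490918785129175850678297783785449134689079614749979671361065592766837078624847248450971663482501705664432160] : List ℕ).getD p 0

/-- the mask of the first `n` bits -/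
def fullN (n : ℕ) : ℕ := 2 ^ n - 1

def full : ℕ := fullN 504

structure Row where
  idx : ℕ
  ra : ℕ
  rb : ℕ
  rc : ℕ

/-- the three neighbourhoods of the point with index `i` -/
def mkRow (i : ℕ) (v : ℕ × ℕ × ℕ × ℕ) : Row :=
  let u := mm v.1 ||| (mm v.2.1 ||| mm v.2.2.1)
  let y := xx v.1 ||| (xx v.2.1 ||| xx v.2.2.1)
  let k := mm v.2.2.2 &&& y
  let z := xx v.2.2.2 ||| k
  let c := z ^^^ (z &&& u)
  let b := (k &&& u) ||| (full ^^^ (full &&& (u ||| (xx v.2.2.2 ||| (mm v.2.2.2 ||| y)))))
  ⟨i, (full ^^^ 2 ^ i) ^^^ (b ^^^ c), b, c⟩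

def mkRows : ℕ → List (ℕ × ℕ × ℕ × ℕ) → List Row
  | _, [] => []
  | i, v :: t => mkRow i v :: mkRows (i + 1) t

def rows : List Row := mkRows 0 verts

/-- check of one row -/
def rowOk (r : Row) : Bool :=
  (r.ra &&& r.rb == 0) && ((r.ra &&& r.rc == 0) && ((r.rb &&& r.rc == 0) &&
    (((r.ra ||| (r.rb ||| r.rc)) == full ^^^ 2 ^ r.idx) &&
      (!(r.ra == 0) && (!(r.rb == 0) && !(r.rc == 0))))))

/-- a power of two -/
def powN (n : ℕ) : ℕ := 2 ^ n

/-- a bit beyond the packed masks, which signals a failure of symmetry -/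
def poison : ℕ := powN 1600

/-- three masks packed into one number -/
def pk (r : Row) : ℕ := r.ra ||| ((r.rb <<< 512) ||| (r.rc <<< 1024))

/-- bitwise `or` of the numbers `f r`, over the rows `r` selected by the mask `sel` -/
def orf (f : Row → ℕ) (sel : ℕ) : List Row → ℕ
  | [] => 0
  | r :: t => bif sel.testBit r.idx then f r ||| orf f sel t else orf f sel t

/-- check of the compositions at one point -/
def rowCheck (r : Row) : Bool :=
  (orf (fun s => bif s.rc.testBit r.idx then pk s else poison) r.rc rows ==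
    ((full ^^^ 2 ^ r.idx) ||| ((r.ra <<< 512) ||| ((r.ra ||| 2 ^ r.idx) <<< 1024)))) &&
  ((orf (fun s => bif s.rb.testBit r.idx then pk s else poison) r.rb rows ==
    ((full ^^^ 2 ^ r.idx) ||| (((full ^^^ r.rc) <<< 512) ||| (r.ra <<< 1024)))) &&
  (orf (fun s => s.ra) r.ra (rows.take 64) == full))

def checkN : ℕ → List Row → Bool
  | 0, _ => true
  | _ + 1, [] => true
  | n + 1, r :: t => rowCheck r && checkN n t

def idxOk : ℕ → List Row → Bool
  | _, [] => true
  | i, r :: t => (r.idx == i) && idxOk (i + 1) t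

theorem rows_length : rows.length = 504 := by decide +kernel

theorem rows_ok : rows.all rowOk = true := by decide +kernel

theorem rows_idx : idxOk 0 rows = true := by decide +kernel

theorem rows_check_0 : checkN 63 (rows.drop 0) = true := by decide +kernel

theorem rows_check_1 : checkN 63 (rows.drop 63) = true := by decide +kernel

theorem rows_check_2 : checkN 63 (rows.drop 126) = true := by decide +kernel

theorem rows_check_3 : checkN 63 (rows.drop 189) = true := by decide +kernel

theorem rows_check_4 : checkN 63 (rows.drop 252) = true := by decide +kernel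

theorem rows_check_5 : checkN 63 (rows.drop 315) = true := by decide +kernel

theorem rows_check_6 : checkN 63 (rows.drop 378) = true := by decide +kernel

theorem rows_check_7 : checkN 63 (rows.drop 441) = true := by decide +kernel

theorem rows_check : ∀ j < 8, checkN 63 (rows.drop (63 * j)) = true := by
  intro j hj
  interval_cases j
  · exact rows_check_0
  · exact rows_check_1
  · exact rows_check_2
  · exact rows_check_3
  · exact rows_check_4
  · exact rows_check_5
  · exact rows_check_6
  · exact rows_check_7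

/-! ### From the masks to the colouring -/

theorem idxOk_get : ∀ (l : List Row) (i : ℕ), idxOk i l = true → ∀ (k : ℕ) (hk : k < l.length),
    (l[k]).idx = i + k
  | [], _, _, k, hk => absurd hk (Nat.not_lt_zero k)
  | r :: t, i, h, 0, _ => by
      have h' : ((r.idx == i) && idxOk (i + 1) t) = true := h
      rw [Bool.and_eq_true] at h'
      have := eq_of_beq h'.1
      simpa using this
  | r :: t, i, h, k + 1, hk => by
      have h' : ((r.idx == i) && idxOk (i + 1) t) = true := h
      rw [Bool.and_eq_true] at h'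
      have := idxOk_get t (i + 1) h'.2 k (by simpa using hk)
      rw [List.getElem_cons_succ, this]
      omega

theorem checkN_get : ∀ (n : ℕ) (l : List Row), checkN n l = true → ∀ (i : ℕ) (_ : i < n)
    (hi : i < l.length), rowCheck (l[i]) = true
  | 0, _, _, i, hn, _ => absurd hn (Nat.not_lt_zero i)
  | _ + 1, [], _, i, _, hi => absurd hi (Nat.not_lt_zero i)
  | n + 1, r :: t, h, 0, _, _ => by
      have h' : (rowCheck r && checkN n t) = true := h
      rw [Bool.and_eq_true] at h'
      exact h'.1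
  | n + 1, r :: t, h, i + 1, hn, hi => by
      have h' : (rowCheck r && checkN n t) = true := h
      rw [Bool.and_eq_true] at h'
      rw [List.getElem_cons_succ]
      exact checkN_get n t h'.2 i (by omega) (by simpa using hi)

theorem orf_testBit (f : Row → ℕ) (sel : ℕ) : ∀ (l : List Row) (n : ℕ),
    (orf f sel l).testBit n = true ↔
      ∃ r ∈ l, sel.testBit r.idx = true ∧ (f r).testBit n = true
  | [], n => by simp [orf]
  | r :: t, n => by
      have ih := orf_testBit f sel t n
      have e : orf f sel (r :: t) =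
        bif sel.testBit r.idx then f r ||| orf f sel t else orf f sel t := rfl
      rw [e]
      cases h : sel.testBit r.idx
      · rw [cond_false, ih]
        constructor
        · rintro ⟨x, hx, h1, h2⟩
          exact ⟨x, List.mem_cons_of_mem _ hx, h1, h2⟩
        · rintro ⟨x, hx, h1, h2⟩
          rcases List.mem_cons.1 hx with rfl | hx
          · rw [h] at h1; exact absurd h1 (by simp)
          · exact ⟨x, hx, h1, h2⟩
      · rw [cond_true, Nat.testBit_or, Bool.or_eq_true, ih]
        constructor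
        · rintro (h1 | ⟨x, hx, h1, h2⟩)
          · exact ⟨r, List.mem_cons_self, h, h1⟩
          · exact ⟨x, List.mem_cons_of_mem _ hx, h1, h2⟩
        · rintro ⟨x, hx, h1, h2⟩
          rcases List.mem_cons.1 hx with rfl | hx
          · exact Or.inl h2
          · exact Or.inr ⟨x, hx, h1, h2⟩

theorem testBit_fullN (n j : ℕ) : (fullN n).testBit j = decide (j < n) := by
  unfold fullN
  exact Nat.testBit_two_pow_sub_one n j

theorem testBit_full (j : ℕ) : full.testBit j = decide (j < 504) := testBit_fullN 504 j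

theorem testBit_powN (n : ℕ) : (powN n).testBit n = true := Nat.testBit_two_pow_self

theorem testBit_poison : poison.testBit 1600 = true := testBit_powN 1600

attribute [local irreducible] rows orf full poison

/-- the row of a point -/
def R (i : Fin 504) : Row := rows[i.val]'(by rw [rows_length]; exact i.2)

theorem R_idx (i : Fin 504) : (R i).idx = i.val := by
  have := idxOk_get rows 0 rows_idx i.val (by rw [rows_length]; exact i.2)
  simpa [R] using this

theorem R_ok (i : Fin 504) : rowOk (R i) = true := by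
  have h := rows_ok
  rw [List.all_eq_true] at h
  exact h _ (List.getElem_mem _)

theorem R_check (i : Fin 504) : rowCheck (R i) = true := by
  have hi := i.2
  have h1 := rows_check (i.val / 63) (by omega)
  have h2 := checkN_get 63 _ h1 (i.val % 63) (by omega)
    (by rw [List.length_drop, rows_length]; omega)
  rw [List.getElem_drop] at h2
  have e1 : 63 * (i.val / 63) + i.val % 63 = i.val := by omega
  simp only [e1] at h2
  exact h2

theorem mem_rows_iff (r : Row) : r ∈ rows ↔ ∃ j : Fin 504, r = R j := by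
  constructor
  · intro h
    obtain ⟨n, hn, e⟩ := List.mem_iff_getElem.1 h
    exact ⟨⟨n, by rw [rows_length] at hn; exact hn⟩, e.symm⟩
  · rintro ⟨j, rfl⟩
    exact List.getElem_mem _

/-- the colour of a pair of points -/
def col (i j : Fin 504) : Atom :=
  if i = j then one
  else if (R i).rc.testBit j.val = true then c
  else if (R i).rb.testBit j.val = true then b
  else a

/-- the neighbourhood masks -/
def msk (x : Atom) (i : Fin 504) : ℕ :=
  match x with
  | one => 0
  | a => (R i).ra
  | b => (R i).rb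
  | c => (R i).rc

theorem row_facts (i : Fin 504) :
    (R i).ra &&& (R i).rb = 0 ∧ (R i).ra &&& (R i).rc = 0 ∧ (R i).rb &&& (R i).rc = 0 ∧
      ((R i).ra ||| ((R i).rb ||| (R i).rc)) = full ^^^ 2 ^ i.val ∧
      (R i).ra ≠ 0 ∧ (R i).rb ≠ 0 ∧ (R i).rc ≠ 0 := by
  have h := R_ok i
  unfold rowOk at h
  rw [R_idx] at h
  simpa only [Bool.and_eq_true, beq_iff_eq, Bool.not_eq_true', beq_eq_false_iff_ne] using h

theorem row_bits (i : Fin 504) (j : ℕ) :
    ((R i).ra.testBit j || ((R i).rb.testBit j || (R i).rc.testBit j)) =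
      (decide (j < 504) ^^ decide (i.val = j)) := by
  have h := (row_facts i).2.2.2.1
  have h2 := congrArg (fun m => Nat.testBit m j) h
  simp only [Nat.testBit_or, Nat.testBit_xor, testBit_full, Nat.testBit_two_pow] at h2
  exact h2

theorem not_both (m n j : ℕ) (h : m &&& n = 0) : ¬ (m.testBit j = true ∧ n.testBit j = true) := by
  rintro ⟨h1, h2⟩
  have := congrArg (fun m => Nat.testBit m j) h
  simp [Nat.testBit_and, h1, h2] at this

theorem msk_iff (x : Atom) (hx : x ≠ one) (i j : Fin 504) :
    (msk x i).testBit j.val = true ↔ col i j = x := by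
  have hb := row_bits i j.val
  obtain ⟨hab, hac, hbc, -⟩ := row_facts i
  have n1 := not_both _ _ j.val hab
  have n2 := not_both _ _ j.val hac
  have n3 := not_both _ _ j.val hbc
  by_cases hij : i = j
  · subst hij
    have hcol : col i i = one := by simp [col]
    rw [hcol]
    simp only [i.2, decide_true, Bool.xor_self, Bool.or_eq_false_iff] at hb
    obtain ⟨h1, h2, h3⟩ := hb
    cases x <;> simp_all [msk]
  · have hij' : ¬ (i.val = j.val) := fun h => hij (Fin.ext h)
    simp only [j.2, decide_true, hij', decide_false, Bool.xor_false] at hb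
    cases h1 : (R i).ra.testBit j.val <;> cases h2 : (R i).rb.testBit j.val <;>
      cases h3 : (R i).rc.testBit j.val <;> cases x <;> simp_all [msk, col]

theorem col_self_iff (i j : Fin 504) : col i j = one ↔ i = j := by
  unfold col
  split_ifs <;> simp_all

/-- bits of the masks beyond 504 vanish -/
theorem msk_big (x : Atom) (i : Fin 504) (j : ℕ) (hj : 504 ≤ j) : (msk x i).testBit j = false := by
  have hb := row_bits i j
  have hn : ¬ (j < 504) := by omega
  have hi : ¬ (i.val = j) := fun h => hn (h ▸ i.2)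
  simp only [hn, decide_false, hi, Bool.xor_self, Bool.or_eq_false_iff] at hb
  obtain ⟨h1, h2, h3⟩ := hb
  cases x <;> simp_all [msk]

/-- the position of a colour in a packed number -/
def off : Atom → ℕ
  | one => 0
  | a => 0
  | b => 512
  | c => 1024

theorem pk_testBit (x : Atom) (hx : x ≠ one) (j : Fin 504) (k : ℕ) (hk : k < 512) :
    (pk (R j)).testBit (k + off x) = (msk x j).testBit k := by
  have ha : ∀ n, 504 ≤ n → (R j).ra.testBit n = false := fun n hn => msk_big a j n hn
  have hb : ∀ n, 504 ≤ n → (R j).rb.testBit n = false := fun n hn => msk_big b j n hn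
  unfold pk
  simp only [Nat.testBit_or, Nat.testBit_shiftLeft]
  cases x
  · exact absurd rfl hx
  · have e1 : ¬ (k + off a ≥ 512) := by simp only [off]; omega
    have e2 : ¬ (k + off a ≥ 1024) := by simp only [off]; omega
    simp only [e1, e2, decide_false, Bool.false_and, Bool.or_false, msk]
    rfl
  · have e1 : k + off b ≥ 512 := by simp only [off]; omega
    have e2 : ¬ (k + off b ≥ 1024) := by simp only [off]; omega
    have e3 : k + off b - 512 = k := by simp only [off]; omega
    simp only [e1, e2, e3, decide_false, decide_true, Bool.false_and, Bool.or_false, Bool.true_and,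
      msk, ha _ (by omega : 504 ≤ k + off b), Bool.false_or]
  · have e1 : k + off c ≥ 512 := by simp only [off]; omega
    have e2 : k + off c ≥ 1024 := by simp only [off]; omega
    have e3 : k + off c - 1024 = k := by simp only [off]; omega
    simp only [e1, e2, e3, decide_true, Bool.true_and, msk,
      ha _ (by omega : 504 ≤ k + off c), Bool.false_or,
      hb _ (by simp only [off]; omega : 504 ≤ k + off c - 512)]

/-- the table of `Below` as a Boolean function -/
def bl : Atom → Atom → Atom → Bool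
  | one, y, z => y == z
  | x, one, z => x == z
  | x, y, one => x == y
  | a, _, _ => true
  | _, a, _ => true
  | _, _, a => true
  | b, b, b => true
  | _, _, _ => false

instance (x y z : Atom) : Decidable (Forbidden x y z) := by unfold Forbidden; infer_instance

instance (x y z : Atom) : Decidable (Below x y z) := by unfold Below; infer_instance

theorem below_iff (x y z : Atom) : Below x y z ↔ bl x y z = true := by
  cases x <;> cases y <;> cases z <;> decide

theorem below_symm (x y z : Atom) : Below x y z ↔ Below y x z := by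
  rw [below_iff, below_iff]
  cases x <;> cases y <;> cases z <;> decide

/-- generic consequence of an equation checked for a row -/
theorem orf_row (g : Row → ℕ) (i : Fin 504) (x : Atom) (hx : x ≠ one) (m : ℕ)
    (hm : m.testBit 1600 = false)
    (h : orf (fun s => bif (g s).testBit i.val then pk s else poison) (msk x i) rows = m) :
    (∀ j : Fin 504, col i j = x → (g (R j)).testBit i.val = true) ∧
    ∀ (y : Atom), y ≠ one → ∀ k : Fin 504,
      (m.testBit (k.val + off y) = true ↔ ∃ j : Fin 504, col i j = x ∧ col j k = y) := by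
  have h1 : ∀ j : Fin 504, col i j = x → (g (R j)).testBit i.val = true := by
    intro j hj
    by_contra hn
    have hn' : (g (R j)).testBit i.val = false := by simpa using hn
    have : (orf (fun s => bif (g s).testBit i.val then pk s else poison) (msk x i) rows).testBit
        1600 = true := by
      rw [orf_testBit]
      refine ⟨R j, (mem_rows_iff _).2 ⟨j, rfl⟩, ?_, ?_⟩
      · rw [R_idx]; exact (msk_iff x hx i j).2 hj
      · show (bif (g (R j)).testBit i.val then pk (R j) else poison).testBit 1600 = true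
        rw [hn', cond_false]
        exact testBit_poison
    rw [h, hm] at this
    exact absurd this (by simp)
  refine ⟨h1, ?_⟩
  intro y hy k
  rw [← h, orf_testBit]
  constructor
  · rintro ⟨r, hr, h2, h3⟩
    obtain ⟨j, rfl⟩ := (mem_rows_iff r).1 hr
    rw [R_idx] at h2
    have hj := (msk_iff x hx i j).1 h2
    refine ⟨j, hj, ?_⟩
    have h3' : (bif (g (R j)).testBit i.val then pk (R j) else poison).testBit
        (k.val + off y) = true := h3
    rw [h1 j hj, cond_true] at h3'
    rw [pk_testBit y hy j k.val (by omega)] at h3'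
    exact (msk_iff y hy j k).1 h3'
  · rintro ⟨j, hj, hjk⟩
    refine ⟨R j, (mem_rows_iff _).2 ⟨j, rfl⟩, ?_, ?_⟩
    · rw [R_idx]; exact (msk_iff x hx i j).2 hj
    · show (bif (g (R j)).testBit i.val then pk (R j) else poison).testBit
        (k.val + off y) = true
      rw [h1 j hj, cond_true, pk_testBit y hy j k.val (by omega)]
      exact (msk_iff y hy j k).2 hjk

theorem packed_testBit (u v w k : ℕ) (hk : k < 504) (hu : ∀ n, 504 ≤ n → u.testBit n = false)
    (hv : ∀ n, 504 ≤ n → v.testBit n = false) :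
    (u ||| ((v <<< 512) ||| (w <<< 1024))).testBit k = u.testBit k ∧
    (u ||| ((v <<< 512) ||| (w <<< 1024))).testBit (k + 512) = v.testBit k ∧
    (u ||| ((v <<< 512) ||| (w <<< 1024))).testBit (k + 1024) = w.testBit k := by
  simp only [Nat.testBit_or, Nat.testBit_shiftLeft]
  refine ⟨?_, ?_, ?_⟩
  · have e1 : ¬ (k ≥ 512) := by omega
    have e2 : ¬ (k ≥ 1024) := by omega
    simp [e1, e2]
  · have e1 : k + 512 ≥ 512 := by omega
    have e2 : ¬ (k + 512 ≥ 1024) := by omega
    simp [e1, e2, hu (k + 512) (by omega)]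
  · have e1 : k + 1024 ≥ 512 := by omega
    have e2 : k + 1024 ≥ 1024 := by omega
    have e3 : k + 1024 - 512 = k + 512 := by omega
    simp [e1, e2, e3, hu (k + 1024) (by omega), hv (k + 512) (by omega)]

theorem packed_1600 (u v w : ℕ) (hu : ∀ n, 504 ≤ n → u.testBit n = false)
    (hv : ∀ n, 504 ≤ n → v.testBit n = false) (hw : ∀ n, 504 ≤ n → w.testBit n = false) :
    (u ||| ((v <<< 512) ||| (w <<< 1024))).testBit 1600 = false := by
  simp only [Nat.testBit_or, Nat.testBit_shiftLeft]
  rw [hu 1600 (by omega), hv (1600 - 512) (by omega), hw (1600 - 1024) (by omega)]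
  simp

theorem fx_testBit (i : Fin 504) (n : ℕ) :
    (full ^^^ 2 ^ i.val).testBit n = (decide (n < 504) ^^ decide (i.val = n)) := by
  rw [Nat.testBit_xor, testBit_full, Nat.testBit_two_pow]

theorem col_eq_one_iff (i j : Fin 504) : col i j = one ↔ i.val = j.val := by
  rw [col_self_iff, Fin.ext_iff]

theorem comp_c (i : Fin 504) :
    (∀ j : Fin 504, col i j = c → col j i = c) ∧
    ∀ y, y ≠ one → ∀ k : Fin 504,
      (bl c y (col i k) = true ↔ ∃ j : Fin 504, col i j = c ∧ col j k = y) := by
  have h := R_check i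
  unfold rowCheck at h
  rw [Bool.and_eq_true, beq_iff_eq, R_idx] at h
  have h1 := h.1
  have hfx : ∀ n, 504 ≤ n → (full ^^^ 2 ^ i.val).testBit n = false := by
    intro n hn
    rw [fx_testBit]
    have e1 : ¬ n < 504 := by omega
    have e2 : ¬ i.val = n := by omega
    simp [e1, e2]
  have ha : ∀ n, 504 ≤ n → (R i).ra.testBit n = false := fun n hn => msk_big a i n hn
  have hac : ∀ n, 504 ≤ n → ((R i).ra ||| 2 ^ i.val).testBit n = false := by
    intro n hn
    rw [Nat.testBit_or, ha n hn, Nat.testBit_two_pow]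
    have e2 : ¬ i.val = n := by omega
    simp [e2]
  obtain ⟨o1, o2⟩ := orf_row (fun s => s.rc) i c (by decide) _ (packed_1600 _ _ _ hfx ha hac) h1
  constructor
  · intro j hj
    exact (msk_iff c (by decide) j i).1 (o1 j hj)
  · intro y hy k
    rw [← o2 y hy k]
    obtain ⟨p1, p2, p3⟩ := packed_testBit (full ^^^ 2 ^ i.val) (R i).ra ((R i).ra ||| 2 ^ i.val)
      k.val k.2 hfx ha
    have q := msk_iff a (by decide) i k
    have q' : ((R i).ra).testBit k.val = true ↔ col i k = a := q
    have q1 := col_eq_one_iff i k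
    cases y
    · exact absurd rfl hy
    · show _ ↔ Nat.testBit _ (k.val + 0) = true
      rw [Nat.add_zero, p1, fx_testBit]
      simp only [k.2, decide_true]
      cases e : col i k <;> simp_all [bl]
    · show _ ↔ Nat.testBit _ (k.val + 512) = true
      rw [p2, q']
      cases e : col i k <;> simp_all [bl]
    · show _ ↔ Nat.testBit _ (k.val + 1024) = true
      rw [p3, Nat.testBit_or, Nat.testBit_two_pow, Bool.or_eq_true, q', decide_eq_true_iff, ← q1]
      cases e : col i k <;> simp_all [bl]

theorem comp_b (i : Fin 504) :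
    (∀ j : Fin 504, col i j = b → col j i = b) ∧
    ∀ y, y ≠ one → ∀ k : Fin 504,
      (bl b y (col i k) = true ↔ ∃ j : Fin 504, col i j = b ∧ col j k = y) := by
  have h := R_check i
  unfold rowCheck at h
  rw [Bool.and_eq_true, Bool.and_eq_true, beq_iff_eq, beq_iff_eq, R_idx] at h
  have h1 := h.2.1
  have hfx : ∀ n, 504 ≤ n → (full ^^^ 2 ^ i.val).testBit n = false := by
    intro n hn
    rw [fx_testBit]
    have e1 : ¬ n < 504 := by omega
    have e2 : ¬ i.val = n := by omega
    simp [e1, e2]
  have ha : ∀ n, 504 ≤ n → (R i).ra.testBit n = false := fun n hn => msk_big a i n hn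
  have hc : ∀ n, 504 ≤ n → (full ^^^ (R i).rc).testBit n = false := by
    intro n hn
    have : (R i).rc.testBit n = false := msk_big c i n hn
    have e1 : ¬ n < 504 := by omega
    rw [Nat.testBit_xor, testBit_full, this]
    simp [e1]
  obtain ⟨o1, o2⟩ := orf_row (fun s => s.rb) i b (by decide) _ (packed_1600 _ _ _ hfx hc ha) h1
  constructor
  · intro j hj
    exact (msk_iff b (by decide) j i).1 (o1 j hj)
  · intro y hy k
    rw [← o2 y hy k]
    obtain ⟨p1, p2, p3⟩ := packed_testBit (full ^^^ 2 ^ i.val) (full ^^^ (R i).rc) (R i).ra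
      k.val k.2 hfx hc
    have q' : ((R i).ra).testBit k.val = true ↔ col i k = a := msk_iff a (by decide) i k
    have q'' : ((R i).rc).testBit k.val = true ↔ col i k = c := msk_iff c (by decide) i k
    have q1 := col_eq_one_iff i k
    cases y
    · exact absurd rfl hy
    · show _ ↔ Nat.testBit _ (k.val + 0) = true
      rw [Nat.add_zero, p1, fx_testBit]
      simp only [k.2, decide_true]
      cases e : col i k <;> simp_all [bl]
    · show _ ↔ Nat.testBit _ (k.val + 512) = true
      rw [p2, Nat.testBit_xor, testBit_full]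
      simp only [k.2, decide_true]
      cases e : col i k <;> simp_all [bl]
    · show _ ↔ Nat.testBit _ (k.val + 1024) = true
      rw [p3, q']
      cases e : col i k <;> simp_all [bl]

theorem comp_a (i k : Fin 504) : ∃ j : Fin 504, col i j = a ∧ col j k = a := by
  have h := R_check i
  unfold rowCheck at h
  rw [Bool.and_eq_true, Bool.and_eq_true, beq_iff_eq, beq_iff_eq, beq_iff_eq] at h
  have h1 := h.2.2
  have h2 : (orf (fun s => s.ra) (R i).ra (rows.take 64)).testBit k.val = true := by
    rw [h1, testBit_full]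
    simp [k.2]
  rw [orf_testBit] at h2
  obtain ⟨r, hr, h3, h4⟩ := h2
  obtain ⟨j, rfl⟩ := (mem_rows_iff r).1 (List.mem_of_mem_take hr)
  rw [R_idx] at h3
  exact ⟨j, (msk_iff a (by decide) i j).1 h3, (msk_iff a (by decide) j k).1 h4⟩

theorem col_symm (i k : Fin 504) : col i k = col k i := by
  cases h : col i k
  · rw [col_self_iff] at h
    rw [h, eq_comm, col_self_iff]
  · cases h' : col k i
    · rw [col_self_iff] at h'
      rw [h'] at h
      have : col i i = one := by rw [col_self_iff]
      rw [this] at h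
      exact absurd h (by decide)
    · rfl
    · rw [(comp_b k).1 i h'] at h; exact absurd h (by decide)
    · rw [(comp_c k).1 i h'] at h; exact absurd h (by decide)
  · exact ((comp_b i).1 k h).symm
  · exact ((comp_c i).1 k h).symm

theorem path_iff_ne (x y : Atom) (hx : x ≠ one) (hy : y ≠ one) (i k : Fin 504) (h : i ≠ k) :
    (∃ j : Fin 504, col i j = x ∧ col j k = y) ↔ Below x y (col i k) := by
  have hik : col i k ≠ one := fun h' => h ((col_self_iff i k).1 h')
  have key : ∀ x y : Atom, x = b ∨ x = c → y ≠ one → ∀ i k : Fin 504,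
      ((∃ j : Fin 504, col i j = x ∧ col j k = y) ↔ Below x y (col i k)) := by
    intro x y hx hy i k
    rw [below_iff]
    rcases hx with rfl | rfl
    · exact ((comp_b i).2 y hy k).symm
    · exact ((comp_c i).2 y hy k).symm
  by_cases hxa : x = a
  · by_cases hya : y = a
    · subst hxa; subst hya
      constructor
      · intro _
        rw [below_iff]
        revert hik
        cases col i k <;> simp [bl]
      · intro _
        exact comp_a i k
    · have hy2 : y = b ∨ y = c := by cases y <;> simp_all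
      have e2 : (∃ j : Fin 504, col i j = x ∧ col j k = y) ↔
          ∃ j : Fin 504, col k j = y ∧ col j i = x := by
        constructor
        · rintro ⟨j, h1, h2⟩; exact ⟨j, by rw [col_symm]; exact h2, by rw [col_symm]; exact h1⟩
        · rintro ⟨j, h1, h2⟩; exact ⟨j, by rw [col_symm]; exact h2, by rw [col_symm]; exact h1⟩
      rw [e2, key y x hy2 hx k i, below_symm, col_symm]
  · have hx2 : x = b ∨ x = c := by cases x <;> simp_all
    exact key x y hx2 hy i k

theorem exists_col (x : Atom) (i : Fin 504) : ∃ j : Fin 504, col i j = x := by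
  by_cases hx : x = one
  · exact ⟨i, by rw [hx, col_self_iff]⟩
  · have h : msk x i ≠ 0 := by
      obtain ⟨-, -, -, -, h1, h2, h3⟩ := row_facts i
      cases x <;> simp_all [msk]
    obtain ⟨j, hj⟩ := Nat.exists_testBit_of_ne_zero h
    have hlt : j < 504 := by
      by_contra hn
      rw [msk_big x i j (by omega)] at hj
      exact absurd hj (by simp)
    exact ⟨⟨j, hlt⟩, (msk_iff x hx i ⟨j, hlt⟩).1 hj⟩

theorem path_iff (x y : Atom) (i k : Fin 504) :
    (∃ j : Fin 504, col i j = x ∧ col j k = y) ↔ Below x y (col i k) := by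
  by_cases hx : x = one
  · subst hx
    constructor
    · rintro ⟨j, h1, h2⟩
      rw [col_self_iff] at h1
      subst h1
      exact Or.inl ⟨rfl, h2.symm⟩
    · intro h
      rw [below_iff] at h
      have h' : (y == col i k) = true := h
      exact ⟨i, by rw [col_self_iff], (eq_of_beq h').symm⟩
  · by_cases hy : y = one
    · subst hy
      constructor
      · rintro ⟨j, h1, h2⟩
        rw [col_self_iff] at h2
        subst h2
        exact Or.inr (Or.inl ⟨rfl, h1.symm⟩)
      · intro h
        rw [below_symm, below_iff] at h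
        have h' : (x == col i k) = true := h
        exact ⟨k, (eq_of_beq h').symm, by rw [col_self_iff]⟩
    · by_cases hik : i = k
      · subst hik
        have e : col i i = one := by rw [col_self_iff]
        rw [e]
        constructor
        · rintro ⟨j, h1, h2⟩
          rw [col_symm] at h2
          exact Or.inr (Or.inr (Or.inl ⟨rfl, h1.symm.trans h2⟩))
        · intro h
          rw [below_iff] at h
          have hxy : x = y := by
            revert h
            cases x <;> cases y <;> simp_all [bl]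
          subst hxy
          obtain ⟨j, hj⟩ := exists_col x i
          exact ⟨j, hj, by rw [col_symm]; exact hj⟩
      · exact path_iff_ne x y hx hy i k hik

/-- the representation -/
def rep (X : Set Atom) : Set (Fin 504 × Fin 504) := {p | col p.1 p.2 ∈ X}

theorem rep_squareRep : SquareRep rep where
  inj := by
    intro X Y h
    ext x
    obtain ⟨j, hj⟩ := exists_col x 0
    have := congrArg (fun S : Set (Fin 504 × Fin 504) => ((0 : Fin 504), j) ∈ S) h
    simp only [rep, Set.mem_ofPred_eq, hj] at this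
    exact this.to_iff
  union := by intro X Y; ext p; simp [rep]
  compl := by intro X; ext p; simp [rep]
  comp := by
    intro X Y
    ext p
    simp only [rep, comp, Set.mem_ofPred_eq]
    constructor
    · rintro ⟨x, hx, y, hy, h⟩
      obtain ⟨j, h1, h2⟩ := (path_iff x y p.1 p.2).2 h
      exact ⟨j, by rw [h1]; exact hx, by rw [h2]; exact hy⟩
    · rintro ⟨j, h1, h2⟩
      exact ⟨_, h1, _, h2, (path_iff _ _ p.1 p.2).1 ⟨j, rfl, rfl⟩⟩
  conv := by
    intro X
    ext p
    simp only [rep, Set.mem_ofPred_eq]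
    rw [col_symm]
  ident := by
    ext p
    simp only [rep, Set.mem_ofPred_eq, Set.mem_singleton_iff]
    exact col_self_iff _ _

/-- **Main theorem**: `33_65` has a square representation on a finite set, namely on a set with
504 elements. -/
theorem result : 504 ∈ FinSpec := ⟨by norm_num, rep, rep_squareRep⟩

end Pool.Agent.Results.MP_793ea6_al.FiniteRep
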